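import Pool.Agent.N549.SG.Stm

/-!
# SG/CAPR (helper424, for helper549): the ratio of the volumes of two caps

The cone over the cap `x₀ > t` contains a circular cone, and is contained in the union of two
circular cones (apex `0` and the pole `1 / t` of the boundary of the cap).
-/

set_option autoImplicit false

open MeasureTheory Set Filter
open scoped ENNReal RealInnerProductSpace Pointwise

namespace Pool.Agent.N424.SG.Capr

open Pool.Agent.N303.SH (E S sg S_norm)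
open Pool.Agent.N549.SG

variable {c : ℕ}

/-- the sum of the squares of the last coordinates -/
def tl (x : Fin (c + 2) → ℝ) : ℝ := ∑ i : Fin (c + 1), x i.succ ^ 2

theorem tl_nn (x : Fin (c + 2) → ℝ) : 0 ≤ tl x := Finset.sum_nonneg fun _ _ => sq_nonneg _

/-- the solid cone of height `h` and radius `r` -/
def K (c : ℕ) (h r : ℝ) : Set (Fin (c + 2) → ℝ) :=
  {x | 0 < x 0 ∧ x 0 ≤ h ∧ tl x < (r / h * x 0) ^ 2}

/-- the reflected cone with the apex `1 / t` -/
def K2 (c : ℕ) (t r : ℝ) : Set (Fin (c + 2) → ℝ) :=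
  {x | t ≤ x 0 ∧ x 0 < 1 / t ∧ tl x < (r / (1 / t - t) * (1 / t - x 0)) ^ 2}

/-- the cone over the cap -/
def C (c : ℕ) (t : ℝ) : Set (Fin (c + 2) → ℝ) :=
  {x | 0 < x 0 ∧ x 0 ^ 2 + tl x < 1 ∧ t ^ 2 * (x 0 ^ 2 + tl x) < x 0 ^ 2}

/-- diagonal maps -/
noncomputable def dg (a b : ℝ) : (Fin (c + 2) → ℝ) →ₗ[ℝ] (Fin (c + 2) → ℝ) :=
  Matrix.toLin' (Matrix.diagonal (Fin.cons a fun _ => b))

theorem dg_zero (a b : ℝ) (x : Fin (c + 2) → ℝ) : dg a b x 0 = a * x 0 := by
  unfold dg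
  rw [Matrix.toLin'_apply, Matrix.mulVec_diagonal]
  rfl

theorem dg_succ (a b : ℝ) (x : Fin (c + 2) → ℝ) (i : Fin (c + 1)) :
    dg a b x i.succ = b * x i.succ := by
  unfold dg
  rw [Matrix.toLin'_apply, Matrix.mulVec_diagonal]
  rfl

theorem tl_dg (a b : ℝ) (x : Fin (c + 2) → ℝ) : tl (dg a b x) = b ^ 2 * tl x := by
  unfold tl
  rw [Finset.mul_sum]
  refine Finset.sum_congr rfl fun i _ => ?_
  rw [dg_succ, mul_pow]

theorem det_dg (a b : ℝ) : LinearMap.det (dg (c := c) a b) = a * b ^ (c + 1) := by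
  unfold dg
  rw [LinearMap.det_toLin', Matrix.det_diagonal, Fin.prod_univ_succ]
  simp

theorem vol_K {h r : ℝ} (hh : 0 < h) (hr : 0 < r) :
    volume (K c h r) = ENNReal.ofReal (h * r ^ (c + 1)) * volume (K c 1 1) := by
  have h1 : K c h r = dg (1 / h) (1 / r) ⁻¹' K c 1 1 := by
    ext x
    unfold K
    simp only [mem_preimage, mem_ofPred_eq, dg_zero, tl_dg]
    have e1 : 0 < x 0 ↔ 0 < 1 / h * x 0 := by
      rw [mul_pos_iff_of_pos_left (by positivity)]
    have e2 : x 0 ≤ h ↔ 1 / h * x 0 ≤ 1 := by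
      rw [one_div, inv_mul_le_iff₀ hh, mul_one]
    have e3 : tl x < (r / h * x 0) ^ 2 ↔ (1 / r) ^ 2 * tl x < (1 / 1 * (1 / h * x 0)) ^ 2 := by
      have e4 : (1 / r) ^ 2 * tl x < (1 / 1 * (1 / h * x 0)) ^ 2 ↔
          r ^ 2 * ((1 / r) ^ 2 * tl x) < r ^ 2 * (1 / 1 * (1 / h * x 0)) ^ 2 :=
        (mul_lt_mul_iff_right₀ (by positivity)).symm
      rw [e4]
      have e5 : r ^ 2 * ((1 / r) ^ 2 * tl x) = tl x := by field_simp
      have e6 : r ^ 2 * (1 / 1 * (1 / h * x 0)) ^ 2 = (r / h * x 0) ^ 2 := by field_simp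
      rw [e5, e6]
    rw [e1, e2, e3]
  have hd : LinearMap.det (dg (c := c) (1 / h) (1 / r)) ≠ 0 := by
    rw [det_dg]
    positivity
  rw [h1, Measure.addHaar_preimage_linearMap _ hd, det_dg]
  congr 2
  rw [abs_of_pos (by positivity)]
  field_simp
  rw [← mul_pow, one_div_mul_cancel hr.ne', one_pow]

theorem vol_K2 {t r : ℝ} (ht : 0 < t) (ht1 : t < 1) (hr : 0 < r) :
    volume (K2 c t r) = ENNReal.ofReal ((1 / t - t) * r ^ (c + 1)) * volume (K c 1 1) := by
  have ht2 : 0 < 1 / t - t := by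
    rw [sub_pos, lt_div_iff₀ ht]
    nlinarith
  rw [← vol_K ht2 hr]
  have h1 : K2 c t r = dg (-1) 1 ⁻¹' ((fun y => Pi.single 0 (1 / t) + y) ⁻¹' K c (1 / t - t) r) := by
    ext x
    unfold K K2
    have e1 : tl ((Pi.single 0 (1 / t) : Fin (c + 2) → ℝ) + dg (-1) 1 x) = tl x := by
      have : tl ((Pi.single 0 (1 / t) : Fin (c + 2) → ℝ) + dg (-1) 1 x) = tl (dg (-1) 1 x) := by
        unfold tl
        refine Finset.sum_congr rfl fun i _ => ?_
        rw [Pi.add_apply, Pi.single_eq_of_ne (Fin.succ_ne_zero i), zero_add]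
      rw [this, tl_dg]
      ring
    have e2 : ((Pi.single 0 (1 / t) : Fin (c + 2) → ℝ) + dg (-1) 1 x) 0 = 1 / t - x 0 := by
      rw [Pi.add_apply, Pi.single_eq_same, dg_zero]
      ring
    simp only [mem_preimage, mem_ofPred_eq, e1, e2]
    constructor
    · rintro ⟨a1, a2, a3⟩
      exact ⟨by linarith, by linarith, a3⟩
    · rintro ⟨a1, a2, a3⟩
      exact ⟨by linarith, by linarith, a3⟩
  have hd : LinearMap.det (dg (c := c) (-1) 1) ≠ 0 := by
    rw [det_dg]
    norm_num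
  rw [h1, Measure.addHaar_preimage_linearMap _ hd, det_dg, measure_preimage_add]
  norm_num

theorem K_pos : 0 < volume (K c 1 1) := by
  have h1 : IsOpen {x : Fin (c + 2) → ℝ | 0 < x 0 ∧ x 0 < 1 ∧ tl x < x 0 ^ 2} := by
    refine IsOpen.inter ?_ (IsOpen.inter ?_ ?_)
    · exact isOpen_lt continuous_const (continuous_apply 0)
    · exact isOpen_lt (continuous_apply 0) continuous_const
    · refine isOpen_lt ?_ ((continuous_apply 0).pow 2)
      unfold tl
      exact continuous_finsetSum _ fun i _ => (continuous_apply _).pow 2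
  have h2 : {x : Fin (c + 2) → ℝ | 0 < x 0 ∧ x 0 < 1 ∧ tl x < x 0 ^ 2}.Nonempty := by
    refine ⟨Pi.single 0 (1 / 2), ?_, ?_, ?_⟩
    · rw [Pi.single_eq_same]; norm_num
    · rw [Pi.single_eq_same]; norm_num
    · rw [Pi.single_eq_same]
      have : tl (Pi.single 0 (1 / 2) : Fin (c + 2) → ℝ) = 0 := by
        unfold tl
        refine Finset.sum_eq_zero fun i _ => ?_
        rw [Pi.single_eq_of_ne (Fin.succ_ne_zero i)]
        norm_num
      rw [this]
      norm_num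
  refine lt_of_lt_of_le (h1.measure_pos volume h2) (measure_mono ?_)
  rintro x ⟨a1, a2, a3⟩
  refine ⟨a1, a2.le, ?_⟩
  rw [div_one, one_mul]
  exact a3

theorem K_fin : volume (K c 1 1) ≠ ⊤ := by
  have h1 : K c 1 1 ⊆ Metric.closedBall 0 1 := by
    rintro x ⟨a1, a2, a3⟩
    rw [div_one, one_mul] at a3
    rw [mem_closedBall_zero_iff, pi_norm_le_iff_of_nonneg zero_le_one]
    intro i
    rw [Real.norm_eq_abs]
    refine Fin.cases ?_ (fun j => ?_) i
    · rw [abs_of_pos a1]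
      exact a2
    · have h2 : x j.succ ^ 2 ≤ tl x :=
        Finset.single_le_sum (f := fun i : Fin (c + 1) => x i.succ ^ 2)
          (fun _ _ => sq_nonneg _) (Finset.mem_univ j)
      have h3 : x j.succ ^ 2 ≤ 1 := by nlinarith
      exact abs_le_one_iff_mul_self_le_one.2 (by nlinarith)
  exact ((Metric.isBounded_closedBall.subset h1).measure_lt_top).ne

/-- the lower bound -/
theorem low {t : ℝ} (ht : 0 < t) (ht1 : t < 1) :
    ENNReal.ofReal (t * Real.sqrt (1 - t ^ 2) ^ (c + 1)) * volume (K c 1 1) ≤ volume (C c t) := by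
  have hr2 : 0 < 1 - t ^ 2 := by nlinarith
  have hr : 0 < Real.sqrt (1 - t ^ 2) := Real.sqrt_pos.2 hr2
  rw [← vol_K ht hr]
  apply measure_mono
  rintro x ⟨a1, a2, a3⟩
  have a4 : (Real.sqrt (1 - t ^ 2) / t * x 0) ^ 2 = (1 - t ^ 2) / t ^ 2 * x 0 ^ 2 := by
    rw [mul_pow, div_pow, Real.sq_sqrt hr2.le]
  rw [a4] at a3
  have a5 : t ^ 2 * tl x < (1 - t ^ 2) * x 0 ^ 2 := by
    have := mul_lt_mul_of_pos_left a3 (pow_pos ht 2)
    have e : t ^ 2 * ((1 - t ^ 2) / t ^ 2 * x 0 ^ 2) = (1 - t ^ 2) * x 0 ^ 2 := by field_simp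
    rwa [e] at this
  have a6 : t ^ 2 * (x 0 ^ 2 + tl x) < x 0 ^ 2 := by nlinarith
  refine ⟨a1, ?_, a6⟩
  have a7 : x 0 ^ 2 ≤ t ^ 2 := by nlinarith
  have a8 : t ^ 2 * (x 0 ^ 2 + tl x) < t ^ 2 * 1 := by nlinarith
  exact lt_of_mul_lt_mul_left a8 (by positivity)

/-- the upper bound -/
theorem up {t : ℝ} (ht : 0 < t) (ht1 : t < 1) :
    volume (C c t) ≤
      ENNReal.ofReal (Real.sqrt (1 - t ^ 2) ^ (c + 1) / t) * volume (K c 1 1) := by
  have hr2 : 0 < 1 - t ^ 2 := by nlinarith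
  have hr : 0 < Real.sqrt (1 - t ^ 2) := Real.sqrt_pos.2 hr2
  have hrs := Real.sq_sqrt hr2.le
  have ht2 : 0 < 1 / t - t := by
    rw [sub_pos, lt_div_iff₀ ht]
    nlinarith
  have h1 : C c t ⊆ K c t (Real.sqrt (1 - t ^ 2)) ∪ K2 c t (Real.sqrt (1 - t ^ 2)) := by
    rintro x ⟨a1, a2, a3⟩
    have a4 := tl_nn x
    rcases le_or_gt (x 0) t with h | h
    · refine Or.inl ⟨a1, h, ?_⟩
      rw [mul_pow, div_pow, hrs, div_mul_eq_mul_div, lt_div_iff₀ (by positivity)]
      nlinarith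
    · refine Or.inr ⟨h.le, ?_, ?_⟩
      · have h2 : x 0 < 1 := by nlinarith
        have h3 : 1 ≤ 1 / t := by
          rw [le_div_iff₀ ht]
          linarith
        linarith
      · have e1 : Real.sqrt (1 - t ^ 2) / (1 / t - t) * (1 / t - x 0) =
            (1 - t * x 0) / Real.sqrt (1 - t ^ 2) := by
          have e2 : 1 / t - t = Real.sqrt (1 - t ^ 2) ^ 2 / t := by
            rw [hrs]
            field_simp
          rw [e2]
          field_simp
        rw [e1, div_pow, hrs, lt_div_iff₀ hr2]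
        nlinarith [sq_nonneg (x 0 - t)]
  calc volume (C c t) ≤ volume (K c t (Real.sqrt (1 - t ^ 2)) ∪ K2 c t (Real.sqrt (1 - t ^ 2))) :=
        measure_mono h1
    _ ≤ volume (K c t (Real.sqrt (1 - t ^ 2))) + volume (K2 c t (Real.sqrt (1 - t ^ 2))) :=
        measure_union_le _ _
    _ = _ := by
      rw [vol_K ht hr, vol_K2 ht ht1 hr, ← add_mul,
        ← ENNReal.ofReal_add (by positivity) (by positivity)]
      congr 2
      field_simp
      ring

/-- the cone over the cap -/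
theorem cone_eq {t : ℝ} (ht : 0 < t) :
    (Ioo (0 : ℝ) 1 • ((fun y : S (c + 2) => (y : E (c + 2))) '' {y | t < (y : E (c + 2)) 0}) :
      Set (E (c + 2))) = WithLp.ofLp ⁻¹' C c t := by
  have hsum : ∀ x : E (c + 2), ‖x‖ ^ 2 = x 0 ^ 2 + tl (WithLp.ofLp x) := by
    intro x
    rw [EuclideanSpace.real_norm_sq_eq, Fin.sum_univ_succ]
    rfl
  ext x
  simp only [Set.mem_smul, mem_image, mem_ofPred_eq, mem_preimage]
  constructor
  · rintro ⟨r, ⟨hr0, hr1⟩, _, ⟨y, hy, rfl⟩, rfl⟩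
    have h1 := hsum (r • (y : E (c + 2)))
    rw [norm_smul, S_norm, mul_one, Real.norm_eq_abs, sq_abs] at h1
    have h2 : (r • (y : E (c + 2))) 0 = r * (y : E (c + 2)) 0 := rfl
    refine ⟨?_, ?_, ?_⟩
    · show 0 < (r • (y : E (c + 2))) 0
      rw [h2]
      exact mul_pos hr0 (ht.trans hy)
    · show (r • (y : E (c + 2))) 0 ^ 2 + tl _ < 1
      rw [← h1]
      nlinarith
    · show t ^ 2 * ((r • (y : E (c + 2))) 0 ^ 2 + tl _) < (r • (y : E (c + 2))) 0 ^ 2
      rw [← h1, h2, mul_pow, mul_comm (t ^ 2)]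
      apply mul_lt_mul_of_pos_left _ (by positivity)
      nlinarith
  · rintro ⟨h1, h2, h3⟩
    have h1' : 0 < x 0 := h1
    rw [← hsum x] at h2 h3
    have hx : 0 < ‖x‖ := by
      rw [norm_pos_iff]
      rintro rfl
      exact lt_irrefl _ h1'
    refine ⟨‖x‖, ⟨hx, ?_⟩, ‖x‖⁻¹ • x, ⟨⟨‖x‖⁻¹ • x, ?_⟩, ?_, rfl⟩, ?_⟩
    · nlinarith [norm_nonneg x]
    · rw [mem_sphere_zero_iff_norm, norm_smul, norm_inv, norm_norm, inv_mul_cancel₀ hx.ne']
    · show t < ‖x‖⁻¹ * x 0
      rw [inv_mul_eq_div, lt_div_iff₀ hx]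
      have h4 : (t * ‖x‖) ^ 2 < x 0 ^ 2 := by
        rw [mul_pow]
        exact h3
      exact lt_of_pow_lt_pow_left₀ 2 h1'.le h4
    · rw [smul_smul, mul_inv_cancel₀ hx.ne', one_smul]

theorem meas_C (t : ℝ) : MeasurableSet (C c t) := by
  have ht : Measurable fun x : Fin (c + 2) → ℝ => tl x := by
    unfold tl
    exact Finset.measurable_fun_sum _ fun i _ => (measurable_pi_apply _).pow_const 2
  have h0 : Measurable fun x : Fin (c + 2) → ℝ => x 0 := measurable_pi_apply 0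
  refine MeasurableSet.inter ?_ (MeasurableSet.inter ?_ ?_)
  · exact measurableSet_lt measurable_const h0
  · exact measurableSet_lt ((h0.pow_const 2).add ht) measurable_const
  · exact measurableSet_lt (((h0.pow_const 2).add ht).const_mul _) (h0.pow_const 2)

theorem capVol_eq (c : ℕ) : ∃ Z : ℝ, 0 < Z ∧ ∀ t : ℝ, 0 < t →
    capVol c t = Z * (volume (C c t)).toReal := by
  have h1 : sg (c + 2) univ ≠ 0 := by
    rw [Measure.measure_univ_ne_zero]
    intro h0
    rw [Measure.toSphere_eq_zero_iff_finrank, finrank_euclideanSpace_fin] at h0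
    omega
  have h2 : sg (c + 2) univ ≠ ⊤ := measure_ne_top _ _
  refine ⟨((sg (c + 2) univ)⁻¹ * ((c + 2 : ℕ) : ℝ≥0∞)).toReal, ?_, ?_⟩
  · apply ENNReal.toReal_pos
    · exact mul_ne_zero (ENNReal.inv_ne_zero.2 h2) (by simp)
    · exact ENNReal.mul_ne_top (ENNReal.inv_ne_top.2 h1) (ENNReal.natCast_ne_top _)
  · intro t ht
    have hm : MeasurableSet {y : S (c + 2) | t < (y : E (c + 2)) 0} := by
      refine measurableSet_lt measurable_const (Continuous.measurable ?_)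
      fun_prop
    have h3 : sg (c + 2) {y : S (c + 2) | t < (y : E (c + 2)) 0} =
        ((c + 2 : ℕ) : ℝ≥0∞) * volume (C c t) := by
      rw [Measure.toSphere_apply' _ hm, cone_eq ht, finrank_euclideanSpace_fin,
        (PiLp.volume_preserving_ofLp (Fin (c + 2))).measure_preimage (meas_C t).nullMeasurableSet]
    unfold capVol sig
    rw [measureReal_def, Measure.smul_apply, smul_eq_mul, h3, ← mul_assoc, ENNReal.toReal_mul]

theorem capr : S_CAPR := by
  intro c t t' ht htt ht1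
  obtain ⟨Z, hZ, hcap⟩ := capVol_eq c
  have ht' : 0 < t' := lt_of_lt_of_le ht htt
  have ht0 : t < 1 := lt_of_le_of_lt htt ht1
  rw [hcap t ht, hcap t' ht']
  obtain ⟨V, hV⟩ : ∃ V : ℝ, V = (volume (K c 1 1)).toReal := ⟨_, rfl⟩
  have hVp : 0 < V := by
    rw [hV]
    exact ENNReal.toReal_pos K_pos.ne' K_fin
  have hr2 : 0 < 1 - t ^ 2 := by nlinarith
  have hr : 0 < Real.sqrt (1 - t ^ 2) := Real.sqrt_pos.2 hr2
  have hr2' : 0 < 1 - t' ^ 2 := by nlinarith
  have hr' : 0 < Real.sqrt (1 - t' ^ 2) := Real.sqrt_pos.2 hr2'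
  have hfin : ∀ s : ℝ, 0 < s → s < 1 → volume (C c s) ≠ ⊤ := by
    intro s h0 h1
    exact ne_top_of_le_ne_top (ENNReal.mul_ne_top ENNReal.ofReal_ne_top K_fin) (up h0 h1)
  have hlow : t * Real.sqrt (1 - t ^ 2) ^ (c + 1) * V ≤ (volume (C c t)).toReal := by
    have := ENNReal.toReal_mono (hfin t ht ht0) (low (c := c) ht ht0)
    rwa [ENNReal.toReal_mul, ENNReal.toReal_ofReal (by positivity), ← hV] at this
  have hup : (volume (C c t')).toReal ≤ Real.sqrt (1 - t' ^ 2) ^ (c + 1) / t' * V := by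
    have := ENNReal.toReal_mono (ENNReal.mul_ne_top ENNReal.ofReal_ne_top K_fin)
      (up (c := c) ht' ht1)
    rwa [ENNReal.toReal_mul, ENNReal.toReal_ofReal (by positivity), ← hV] at this
  have hpos : 0 < (volume (C c t)).toReal :=
    lt_of_lt_of_le (by positivity) hlow
  refine ⟨mul_pos hZ hpos, ?_⟩
  rw [Real.sqrt_div hr2'.le, div_pow]
  have h1 : Real.sqrt (1 - t' ^ 2) ^ (c + 1) / t' * V =
      Real.sqrt (1 - t' ^ 2) ^ (c + 1) / Real.sqrt (1 - t ^ 2) ^ (c + 1) / (t * t') *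
        (t * Real.sqrt (1 - t ^ 2) ^ (c + 1) * V) := by
    field_simp
  have h2 : Real.sqrt (1 - t' ^ 2) ^ (c + 1) / Real.sqrt (1 - t ^ 2) ^ (c + 1) / (t * t') *
        (t * Real.sqrt (1 - t ^ 2) ^ (c + 1) * V) ≤
      Real.sqrt (1 - t' ^ 2) ^ (c + 1) / Real.sqrt (1 - t ^ 2) ^ (c + 1) / (t * t') *
        (volume (C c t)).toReal := mul_le_mul_of_nonneg_left hlow (by positivity)
  calc Z * (volume (C c t')).toReal ≤ Z * (Real.sqrt (1 - t' ^ 2) ^ (c + 1) /
        Real.sqrt (1 - t ^ 2) ^ (c + 1) / (t * t') * (volume (C c t)).toReal) := by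
        apply mul_le_mul_of_nonneg_left _ hZ.le
        linarith
    _ = _ := by ring

end Pool.Agent.N424.SG.Capr
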