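import Pool.Agent.N549.SG.Stm

/-!
# SG/LOCS (helper424, for helper549): few near pairs in a subset of a cap
-/

set_option autoImplicit false

open MeasureTheory Set Filter
open scoped ENNReal RealInnerProductSpace

namespace Pool.Agent.N424.SG

open Pool.Agent.N303.SH (E S sg rot rot_mp rot_coe exists_rot S_norm)
open Pool.Agent.N549.SG

instance fin_sig (n : ℕ) : IsFiniteMeasure (sig n) := by
  refine ⟨?_⟩
  unfold sig
  rw [Measure.smul_apply, smul_eq_mul]
  exact lt_of_le_of_lt (ENNReal.inv_mul_le_one _) ENNReal.one_lt_top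

theorem meas_near (n : ℕ) (t : ℝ) (x : S n) : MeasurableSet (near n t x) := by
  unfold near
  refine measurableSet_lt measurable_const (Continuous.measurable ?_)
  exact continuous_const.inner continuous_subtype_val

/-- the first basis vector -/
noncomputable def e0 (c : ℕ) : S (c + 2) := ⟨EuclideanSpace.single 0 1, by simp⟩

theorem cap_eq (c : ℕ) (t : ℝ) :
    {y : S (c + 2) | t < (y : E (c + 2)) 0} = near (c + 2) t (e0 c) := by
  ext y
  unfold near e0
  simp [EuclideanSpace.inner_single_left]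

theorem sig_near (c : ℕ) (t : ℝ) (x : S (c + 2)) :
    sig (c + 2) (near (c + 2) t x) = ENNReal.ofReal (capVol c t) := by
  unfold capVol
  rw [cap_eq, ofReal_measureReal]
  obtain ⟨R, hR⟩ := exists_rot (e0 c) x
  have h1 : rot R ⁻¹' (near (c + 2) t x) = near (c + 2) t (e0 c) := by
    ext y
    show t < ⟪(x : E (c + 2)), (rot R y : E (c + 2))⟫ ↔
      t < ⟪(e0 c : E (c + 2)), (y : E (c + 2))⟫
    rw [← hR, rot_coe, rot_coe, R.inner_map_map]
  unfold sig
  rw [Measure.smul_apply, Measure.smul_apply, ← h1,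
    (rot_mp R).measure_preimage (meas_near _ _ _).nullMeasurableSet]

/-- the elementary inequality -/
theorem key {t a : ℝ} (ht : 0 < t) (hta : t ≤ a) :
    t / Real.sqrt ((1 + t) / 2) * Real.sqrt (2 + 2 * a) ≤ t + a := by
  have h1 : 0 < Real.sqrt ((1 + t) / 2) := Real.sqrt_pos.2 (by linarith)
  rw [div_mul_eq_mul_div, div_le_iff₀ h1]
  have h2 : 0 ≤ (t + a) * Real.sqrt ((1 + t) / 2) := mul_nonneg (by linarith) h1.le
  apply le_of_sq_le_sq _ h2
  rw [mul_pow, mul_pow, Real.sq_sqrt (by linarith), Real.sq_sqrt (by linarith)]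
  nlinarith [mul_nonneg ht.le (sub_nonneg.2 hta), mul_nonneg (sq_nonneg (a - t)) ht.le,
    sq_nonneg (a - t)]

/-- the two point argument -/
theorem two_point {n : ℕ} {t : ℝ} (ht : 0 < t) {u v : S n} (huv : t < ⟪(v : E n), (u : E n)⟫) :
    ∃ w : S n, ∀ y : S n, t < ⟪(u : E n), (y : E n)⟫ →
      ⟪(v : E n), (u : E n)⟫ ≤ ⟪(v : E n), (y : E n)⟫ →
      y ∈ near n (t / Real.sqrt ((1 + t) / 2)) w := by
  obtain ⟨a, ha⟩ : ∃ a, a = ⟪(v : E n), (u : E n)⟫ := ⟨_, rfl⟩
  rw [← ha] at huv ⊢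
  have hn : ‖(u : E n) + v‖ ^ 2 = 2 + 2 * a := by
    rw [norm_add_sq_real, S_norm, S_norm, real_inner_comm, ← ha]
    ring
  have hn2 : ‖(u : E n) + v‖ = Real.sqrt (2 + 2 * a) := by
    rw [← hn, Real.sqrt_sq (norm_nonneg _)]
  have hpos : 0 < Real.sqrt (2 + 2 * a) := Real.sqrt_pos.2 (by linarith)
  refine ⟨⟨(Real.sqrt (2 + 2 * a))⁻¹ • ((u : E n) + v), ?_⟩, ?_⟩
  · rw [mem_sphere_zero_iff_norm, norm_smul, hn2, Real.norm_eq_abs, abs_of_pos (inv_pos.2 hpos),
      inv_mul_cancel₀ hpos.ne']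
  · intro y hy hvy
    show t / Real.sqrt ((1 + t) / 2) <
      ⟪(Real.sqrt (2 + 2 * a))⁻¹ • ((u : E n) + v), (y : E n)⟫
    rw [inner_smul_left, inner_add_left, conj_trivial, inv_mul_eq_div, lt_div_iff₀ hpos]
    have h1 := key ht huv.le
    linarith

theorem locs : S_LOCS := by
  intro c t ht ht1 v T hT hTv
  obtain ⟨σ, hσ⟩ : ∃ σ, σ = sig (c + 2) := ⟨_, rfl⟩
  have hfin : IsFiniteMeasure σ := by rw [hσ]; infer_instance
  have hcap : ∀ (s : ℝ) (x : S (c + 2)), σ (near (c + 2) s x) = ENNReal.ofReal (capVol c s) := by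
    intro s x
    rw [hσ]
    exact sig_near c s x
  rw [← hσ]
  obtain ⟨Q, hQ⟩ : ∃ Q : Set (S (c + 2) × S (c + 2)), Q = {p | (p.1 ∈ T ∧ p.2 ∈ T) ∧
    t < ⟪(p.1 : E (c + 2)), (p.2 : E (c + 2))⟫} := ⟨_, rfl⟩
  obtain ⟨P, hP⟩ : ∃ P : Set (S (c + 2) × S (c + 2)), P = {p | ((p.1 ∈ T ∧ p.2 ∈ T) ∧
    t < ⟪(p.1 : E (c + 2)), (p.2 : E (c + 2))⟫) ∧
      ⟪(v : E (c + 2)), (p.1 : E (c + 2))⟫ ≤ ⟪(v : E (c + 2)), (p.2 : E (c + 2))⟫} := ⟨_, rfl⟩
  have c1 : Continuous fun p : S (c + 2) × S (c + 2) => (p.1 : E (c + 2)) :=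
    continuous_subtype_val.comp continuous_fst
  have c2 : Continuous fun p : S (c + 2) × S (c + 2) => (p.2 : E (c + 2)) :=
    continuous_subtype_val.comp continuous_snd
  have mQ : MeasurableSet Q := by
    rw [hQ]
    refine MeasurableSet.inter (MeasurableSet.inter (measurable_fst hT) (measurable_snd hT)) ?_
    exact measurableSet_lt measurable_const (Continuous.inner (𝕜 := ℝ) c1 c2).measurable
  have mP : MeasurableSet P := by
    rw [hP]
    refine MeasurableSet.inter ?_ ?_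
    · rw [hQ] at mQ
      exact mQ
    · exact measurableSet_le (Continuous.inner (𝕜 := ℝ) continuous_const c1).measurable
        (Continuous.inner (𝕜 := ℝ) continuous_const c2).measurable
  have e1 : ∫⁻ u in T, σ (T ∩ near (c + 2) t u) ∂σ = (σ.prod σ) Q := by
    rw [Measure.prod_apply mQ, ← lintegral_indicator hT]
    apply lintegral_congr
    intro u
    by_cases hu : u ∈ T
    · rw [indicator_of_mem hu]
      congr 1
      ext y
      rw [hQ]
      constructor
      · rintro ⟨h1, h2⟩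
        exact ⟨⟨hu, h1⟩, h2⟩
      · rintro ⟨⟨_, h1⟩, h2⟩
        exact ⟨h1, h2⟩
    · rw [indicator_of_notMem hu]
      have : Prod.mk u ⁻¹' Q = ∅ := by
        rw [eq_empty_iff_forall_notMem]
        intro y hy
        rw [hQ] at hy
        exact hu hy.1.1
      rw [this, measure_empty]
  have e2 : (σ.prod σ) P ≤ ENNReal.ofReal (capVol c (t / Real.sqrt ((1 + t) / 2))) * σ T := by
    rw [Measure.prod_apply mP, ← lintegral_indicator_const hT]
    apply lintegral_mono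
    intro u
    show σ (Prod.mk u ⁻¹' P) ≤ T.indicator _ u
    by_cases hu : u ∈ T
    · rw [indicator_of_mem hu]
      obtain ⟨w, hw⟩ := two_point ht (hTv hu)
      rw [← hcap _ w]
      apply measure_mono
      intro y hy
      rw [hP] at hy
      exact hw y hy.1.2 hy.2
    · have : Prod.mk u ⁻¹' P = ∅ := by
        rw [eq_empty_iff_forall_notMem]
        intro y hy
        rw [hP] at hy
        exact hu hy.1.1.1
      rw [this, measure_empty]
      exact zero_le
  have e3 : (σ.prod σ) (Prod.swap ⁻¹' P) = (σ.prod σ) P :=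
    Measure.measurePreserving_swap.measure_preimage mP.nullMeasurableSet
  have e4 : Q ⊆ P ∪ Prod.swap ⁻¹' P := by
    rintro ⟨u, y⟩ h
    rw [hQ] at h
    rw [hP]
    rcases le_total ⟪(v : E (c + 2)), (u : E (c + 2))⟫ ⟪(v : E (c + 2)), (y : E (c + 2))⟫ with h1 | h1
    · exact Or.inl ⟨h, h1⟩
    · refine Or.inr ⟨⟨⟨h.1.2, h.1.1⟩, ?_⟩, h1⟩
      have h2 : t < ⟪(u : E (c + 2)), (y : E (c + 2))⟫ := h.2
      show t < ⟪(y : E (c + 2)), (u : E (c + 2))⟫
      rwa [real_inner_comm]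
  calc ∫⁻ u in T, σ (T ∩ near (c + 2) t u) ∂σ = (σ.prod σ) Q := e1
    _ ≤ (σ.prod σ) (P ∪ Prod.swap ⁻¹' P) := measure_mono e4
    _ ≤ (σ.prod σ) P + (σ.prod σ) (Prod.swap ⁻¹' P) := measure_union_le _ _
    _ = 2 * (σ.prod σ) P := by rw [e3, two_mul]
    _ ≤ 2 * (ENNReal.ofReal (capVol c (t / Real.sqrt ((1 + t) / 2))) * σ T) := by gcongr
    _ = ENNReal.ofReal (2 * capVol c (t / Real.sqrt ((1 + t) / 2))) * σ T := by
      rw [ENNReal.ofReal_mul (by norm_num), ENNReal.ofReal_ofNat, mul_assoc]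

end Pool.Agent.N424.SG
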